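import Pool.Agent.Helper94.BI.KernelSmall

/-! Block BI-3. The kernel is explicit:
`a l = (cos 2πrl - cos 2πr'l) / (2π²(r'-r)l²)`, `a 0 = r + r'`, the Fourier coefficients of a
trapezoid; the symbol is computed with the Fourier series of `B₂` (`KS.hasSum_B2`, helper94). -/

open MeasureTheory Complex Filter Topology

namespace Pool.Agent.Helper57.BI

namespace KG

/-- the numerator -/
noncomputable def N (r r' : ℝ) (l : ℤ) : ℝ :=
  Real.cos (2 * Real.pi * (l * r)) - Real.cos (2 * Real.pi * (l * r'))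

/-- the kernel -/
noncomputable def ker (r r' : ℝ) (l : ℤ) : ℝ :=
  N r r' l / (2 * Real.pi ^ 2 * (r' - r) * (l : ℝ) ^ 2) + (if l = 0 then r + r' else 0)

lemma N_neg (r r' : ℝ) (l : ℤ) : N r r' (-l) = N r r' l := by
  unfold N
  push_cast
  rw [neg_mul, neg_mul, mul_neg, mul_neg, Real.cos_neg, Real.cos_neg]

lemma ker_neg (r r' : ℝ) (l : ℤ) : ker r r' (-l) = ker r r' l := by
  unfold ker
  rw [N_neg]
  push_cast
  rw [neg_sq]
  simp only [neg_eq_zero]

lemma ker_of_ne (r r' : ℝ) {l : ℤ} (hl : l ≠ 0) :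
    ker r r' l = N r r' l / (2 * Real.pi ^ 2 * (r' - r) * (l : ℝ) ^ 2) := by
  unfold ker
  rw [if_neg hl, add_zero]

lemma ker_zero (r r' : ℝ) : ker r r' 0 = r + r' := by
  unfold ker
  simp

lemma summable_ker {r r' : ℝ} (h : r < r') : Summable (ker r r') := by
  have hδ : 0 < r' - r := by linarith
  have hp : 0 < Real.pi := Real.pi_pos
  have h1 : Summable (fun l : ℤ => N r r' l / (2 * Real.pi ^ 2 * (r' - r) * (l : ℝ) ^ 2)) := by
    refine Summable.of_norm_bounded
      (g := fun l : ℤ => (1 / (Real.pi ^ 2 * (r' - r))) * (1 / (l : ℝ) ^ 2))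
      (KS.summable_sq.mul_left _) fun l => ?_
    rw [Real.norm_eq_abs, abs_div]
    have hN : |N r r' l| ≤ 2 := by
      unfold N
      have a1 := Real.cos_le_one (2 * Real.pi * (l * r))
      have a2 := Real.neg_one_le_cos (2 * Real.pi * (l * r))
      have a3 := Real.cos_le_one (2 * Real.pi * (l * r'))
      have a4 := Real.neg_one_le_cos (2 * Real.pi * (l * r'))
      rw [abs_le]
      constructor <;> linarith
    by_cases hl : l = 0
    · subst hl
      simp
    · have hl' : (l : ℝ) ≠ 0 := by exact_mod_cast hl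
      have hl2 : 0 < (l : ℝ) ^ 2 := by positivity
      rw [abs_of_pos (show (0:ℝ) < 2 * Real.pi ^ 2 * (r' - r) * (l : ℝ) ^ 2 by positivity),
        div_le_iff₀ (by positivity)]
      calc |N r r' l| ≤ 2 := hN
        _ = _ := by field_simp
  have h2 : Summable (fun l : ℤ => if l = 0 then r + r' else 0) :=
    (hasSum_ite_eq (0 : ℤ) (r + r')).summable
  exact h1.add h2

/-- The symbol of the kernel is the trapezoid. -/
lemma sym_ker {r r' : ℝ} (h0 : 0 < r) (h1 : r < r') (h2 : r' < 1 / 2) (θ : ℝ)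
    (hθ : |θ| ≤ 1 / 2) :
    sym (fun l => (ker r r' l : ℂ)) θ =
      (((|θ + r'| + |θ - r'| - |θ + r| - |θ - r|) / (2 * (r' - r)) : ℝ) : ℂ) := by
  have hp : (Real.pi : ℂ) ≠ 0 := by exact_mod_cast Real.pi_ne_zero
  have hδ : 0 < r' - r := by linarith
  have hδc : ((r' : ℂ) - r) ≠ 0 := by
    have : ((r' - r : ℝ) : ℂ) ≠ 0 := by exact_mod_cast hδ.ne'
    push_cast at this
    exact this
  have hθ' := abs_le.1 hθ
  have b1 : |θ + r| ≤ 1 := by rw [abs_le]; constructor <;> linarith [hθ'.1, hθ'.2]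
  have b2 : |θ - r| ≤ 1 := by rw [abs_le]; constructor <;> linarith [hθ'.1, hθ'.2]
  have b3 : |θ + r'| ≤ 1 := by rw [abs_le]; constructor <;> linarith [hθ'.1, hθ'.2]
  have b4 : |θ - r'| ≤ 1 := by rw [abs_le]; constructor <;> linarith [hθ'.1, hθ'.2]
  have s1 := KS.hasSum_B2 _ b1
  have s2 := KS.hasSum_B2 _ b2
  have s3 := KS.hasSum_B2 _ b3
  have s4 := KS.hasSum_B2 _ b4
  have s := (((s1.add s2).sub s3).sub s4).mul_left (1 / (4 * (Real.pi : ℂ) ^ 2 * (r' - r)))
  have t : HasSum (fun l : ℤ => if l = 0 then (r + r' : ℂ) else 0) (r + r') :=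
    hasSum_ite_eq (0 : ℤ) (r + r' : ℂ)
  have u := s.add t
  have e : (fun l : ℤ => (ker r r' l : ℂ) * ee (l * θ)) = fun l : ℤ =>
      (1 / (4 * (Real.pi : ℂ) ^ 2 * (r' - r))) * ((1 / (l : ℂ) ^ 2 * ee (l * (θ + r))
        + 1 / (l : ℂ) ^ 2 * ee (l * (θ - r)) - 1 / (l : ℂ) ^ 2 * ee (l * (θ + r'))
        - 1 / (l : ℂ) ^ 2 * ee (l * (θ - r')))) + (if l = 0 then (r + r' : ℂ) else 0) := by
    funext l
    by_cases hl : l = 0
    · subst hl
      rw [ker_zero]
      simp [ee_zero]
    · rw [ker_of_ne r r' hl, if_neg hl, add_zero]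
      have hlc : (l : ℂ) ≠ 0 := by exact_mod_cast hl
      have c1 : (N r r' l : ℂ) = (ee (l * r) + ee (-(l * r))) / 2
          - (ee (l * r') + ee (-(l * r'))) / 2 := by
        unfold N
        push_cast
        rw [← Complex.ofReal_intCast]
        have d1 := KS.cos_eq_ee (l * r)
        have d2 := KS.cos_eq_ee (l * r')
        rw [Complex.ofReal_cos] at d1 d2
        push_cast at d1 d2
        push_cast
        rw [← d1, ← d2]
      push_cast
      rw [c1]
      have e1 : ee (l * (θ + r)) = ee (l * r) * ee (l * θ) := by rw [← ee_add]; congr 1; ring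
      have e2 : ee (l * (θ - r)) = ee (-(l * r)) * ee (l * θ) := by rw [← ee_add]; congr 1; ring
      have e3 : ee (l * (θ + r')) = ee (l * r') * ee (l * θ) := by
        rw [← ee_add]; congr 1; ring
      have e4 : ee (l * (θ - r')) = ee (-(l * r')) * ee (l * θ) := by
        rw [← ee_add]; congr 1; ring
      rw [e1, e2, e3, e4]
      field_simp
      ring
  unfold sym
  rw [e, u.tsum_eq]
  push_cast
  field_simp
  ring

end KG

/-- BI-3 -/
theorem exists_kernel {r r' : ℝ} (h0 : 0 < r) (h1 : r < r') (h2 : r' < 1 / 2) :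
    ∃ a : ℤ → ℝ, Summable a ∧ (∀ l, a (-l) = a l) ∧
      (∀ θ : ℝ, |θ| ≤ r → sym (fun l => (a l : ℂ)) θ = 1) ∧
      (∀ θ : ℝ, r' ≤ |θ| → |θ| ≤ 1 / 2 → sym (fun l => (a l : ℂ)) θ = 0) := by
  have hδ : 0 < r' - r := by linarith
  refine ⟨KG.ker r r', KG.summable_ker h1, KG.ker_neg r r', ?_, ?_⟩
  · intro θ hθ
    rw [KG.sym_ker h0 h1 h2 θ (by linarith)]
    have h3 := abs_le.1 hθ
    have v1 : |θ + r| = θ + r := abs_of_nonneg (by linarith [h3.1])
    have v2 : |θ - r| = r - θ := by rw [abs_of_nonpos (by linarith [h3.2])]; ring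
    have v3 : |θ + r'| = θ + r' := abs_of_nonneg (by linarith [h3.1])
    have v4 : |θ - r'| = r' - θ := by rw [abs_of_nonpos (by linarith [h3.2])]; ring
    rw [v1, v2, v3, v4]
    have : (θ + r' + (r' - θ) - (θ + r) - (r - θ)) / (2 * (r' - r)) = 1 := by
      rw [div_eq_one_iff_eq (by positivity)]
      ring
    rw [this]
    simp
  · intro θ hθ hθ'
    rw [KG.sym_ker h0 h1 h2 θ hθ']
    rcases le_or_gt 0 θ with h | h
    · rw [abs_of_nonneg h] at hθ
      have v1 : |θ + r| = θ + r := abs_of_nonneg (by linarith)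
      have v2 : |θ - r| = θ - r := abs_of_nonneg (by linarith)
      have v3 : |θ + r'| = θ + r' := abs_of_nonneg (by linarith)
      have v4 : |θ - r'| = θ - r' := abs_of_nonneg (by linarith)
      rw [v1, v2, v3, v4]
      have : θ + r' + (θ - r') - (θ + r) - (θ - r) = 0 := by ring
      rw [this]
      simp
    · rw [abs_of_neg h] at hθ
      have v1 : |θ + r| = -(θ + r) := abs_of_nonpos (by linarith)
      have v2 : |θ - r| = -(θ - r) := abs_of_nonpos (by linarith)
      have v3 : |θ + r'| = -(θ + r') := abs_of_nonpos (by linarith)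
      have v4 : |θ - r'| = -(θ - r') := abs_of_nonpos (by linarith)
      rw [v1, v2, v3, v4]
      have : -(θ + r') + -(θ - r') - -(θ + r) - -(θ - r) = 0 := by ring
      rw [this]
      simp

end Pool.Agent.Helper57.BI
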